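import Mathlib

namespace Pool.Agent.Results.MP_18aa7e_al.Free

open FreeGroup

/-- relators of G(2,4); generators a b c d e f are 0 1 2 3 4 5 -/
def rels : Set (FreeGroup (Fin 6)) :=
  {r | (∃ x, r = of x * of x) ∨
    (∃ p ∈ [(0, 5), (1, 4), (2, 3)], r = of p.1 * of p.2 * (of p.2 * of p.1)⁻¹) ∨
    (∃ p ∈ [(0, 1, 3), (1, 0, 3), (0, 3, 1), (0, 2, 4), (2, 0, 4), (0, 4, 2),
        (1, 2, 5), (2, 1, 5), (1, 5, 2), (3, 4, 5), (4, 3, 5), (3, 5, 4)],
      r = of p.1 * of p.2.1 * of p.2.2 * (of p.2.2 * of p.2.1 * of p.1)⁻¹)}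

def A : Equiv.Perm ℚ := Equiv.subLeft 2
def B : Equiv.Perm ℚ := Equiv.neg ℚ
def C : Equiv.Perm ℚ := Equiv.inv ℚ

def im : Fin 6 → Equiv.Perm ℚ := ![A, B, C, B, C, 1]

lemma im_rel : ∀ r ∈ rels, lift im r = 1 := by
  rintro r (⟨x, rfl⟩ | ⟨p, hp, rfl⟩ | ⟨p, hp, rfl⟩)
  · ext t
    fin_cases x <;> simp [im, A, B, C]
  · simp only [_root_.map_mul, _root_.map_inv, lift_apply_of, mul_inv_eq_one]
    ext t
    fin_cases hp <;> simp [im, A, B, C, inv_neg]
  · simp only [_root_.map_mul, _root_.map_inv, lift_apply_of, mul_inv_eq_one]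
    ext t
    fin_cases hp <;> simp [im, A, B, C, inv_neg]

lemma pp : Function.Injective (lift (![A * B * C, B * A * C] : Fin 2 → Equiv.Perm ℚ)) := by
  refine FreeGroup.injective_lift_of_ping_pong (α := ℚ) _ ![Set.Ioi 1, Set.Iio (-1)]
    ![Set.Ico (-1) 0, Set.Ioc 0 1] ?_ ?_ ?_ ?_ ?_ ?_
  · intro i
    fin_cases i <;> simp
  · intro i j hij
    fin_cases i <;> fin_cases j <;> simp [Function.onFun, Set.disjoint_left] at hij ⊢ <;>
      intro a ha <;> linarith
  · intro i j hij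
    fin_cases i <;> fin_cases j <;> simp [Function.onFun, Set.disjoint_left] at hij ⊢ <;>
      intro a ha ha' hb <;> linarith
  · intro i j
    fin_cases i <;> fin_cases j <;> simp [Set.disjoint_left] <;> intro a ha ha' <;> linarith
  · rintro i _ ⟨x, hx, rfl⟩
    fin_cases i
    · simp [A, B, C] at hx ⊢
      by_cases h : 0 ≤ x
      · linarith [inv_nonneg.2 h]
      · have h1 : x < -1 := not_le.1 (fun h' => h (hx h'))
        have : -1 < x⁻¹ := by rw [lt_inv_of_neg (by norm_num) (by linarith)]; simpa using h1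
        linarith
    · simp [A, B, C] at hx ⊢
      by_cases h : x ≤ 0
      · linarith [inv_nonpos.2 h]
      · linarith [inv_lt_one_of_one_lt₀ (hx (not_le.1 h))]
  · rintro i _ ⟨x, hx, rfl⟩
    fin_cases i
    · simp [A, B, C, Equiv.Perm.inv_def] at hx ⊢
      refine ⟨?_, by linarith⟩
      rw [le_inv_of_neg (by norm_num) (by linarith)]
      simp
      linarith
    · simp [A, B, C, Equiv.Perm.inv_def] at hx ⊢
      exact ⟨by linarith, inv_le_one_of_one_le₀ (by linarith)⟩

theorem result : ∃ φ : FreeGroup (Fin 2) →* PresentedGroup rels, Function.Injective φ := by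
  let g : Fin 6 → PresentedGroup rels := PresentedGroup.of
  refine ⟨lift ![g 0 * g 1 * g 2, g 1 * g 0 * g 2], ?_⟩
  have e : (PresentedGroup.toGroup im_rel).comp (lift ![g 0 * g 1 * g 2, g 1 * g 0 * g 2]) =
      lift ![A * B * C, B * A * C] := by
    ext i : 1
    fin_cases i <;> simp [g, im]
  apply Function.Injective.of_comp (f := PresentedGroup.toGroup im_rel)
  rw [← MonoidHom.coe_comp, e]
  exact pp

end Pool.Agent.Results.MP_18aa7e_al.Free
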